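import Pool.Agent.W645.WV.Stm

/-!
Project WV (helper645), MP_ee74d2_an: part LOW.
-/

set_option autoImplicit false

open MeasureTheory Set Complex
open scoped ENNReal

namespace Pool.Agent.W636.WV

open Pool.Agent.W203.BE (T gn ga al S_BAS S_BASN S_MEAS S_CORE)
open Pool.Agent.W645.WV

/-- a power of a logarithm against a square root -/
theorem log_pow_le (n : ℕ) : ∃ C : ℝ, 0 < C ∧ ∀ u : ℝ, 1 ≤ u →
    (1 + Real.log u) ^ n ≤ C * u ^ (1 / 2 : ℝ) := by
  set e : ℝ := 1 / (2 * ((n : ℝ) + 1)) with he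
  have he0 : 0 < e := by positivity
  refine ⟨(1 + 1 / e) ^ n, by positivity, fun u hu => ?_⟩
  have hu0 : 0 < u := by linarith
  have h1 : Real.log u ≤ u ^ e / e := Real.log_le_rpow_div hu0.le he0
  have h2 : 1 ≤ u ^ e := Real.one_le_rpow hu he0.le
  have h3 : 1 + Real.log u ≤ (1 + 1 / e) * u ^ e := by
    have : u ^ e / e = 1 / e * u ^ e := by ring
    rw [this] at h1
    linarith
  have h4 : 0 ≤ 1 + Real.log u := by linarith [Real.log_nonneg hu]
  calc (1 + Real.log u) ^ n ≤ ((1 + 1 / e) * u ^ e) ^ n := pow_le_pow_left₀ h4 h3 n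
    _ = (1 + 1 / e) ^ n * u ^ (e * n) := by
        rw [mul_pow, ← Real.rpow_natCast (u ^ e) n, ← Real.rpow_mul hu0.le]
    _ ≤ (1 + 1 / e) ^ n * u ^ (1 / 2 : ℝ) := by
        refine mul_le_mul_of_nonneg_left (Real.rpow_le_rpow_of_exponent_le hu ?_) (by positivity)
        rw [he, div_mul_eq_mul_div, div_le_div_iff₀ (by positivity) (by norm_num)]
        linarith

/-- weight -/
noncomputable def wt (s : ℝ) : ℝ≥0∞ := ENNReal.ofReal ((1 + |s|) ^ (-((2 : ℕ) : ℝ)))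

theorem wt_meas : Measurable wt := by
  unfold wt
  fun_prop

theorem one_le (s : ℝ) : 1 ≤ 1 + |s| := by linarith [abs_nonneg s]

theorem wt_fin (n : ℕ) :
    ∫⁻ s, wt s * ENNReal.ofReal ((1 + Real.log (1 + |s|)) ^ n) ≠ ⊤ := by
  obtain ⟨C, hC, h⟩ := log_pow_le n
  have hI : Integrable (fun s : ℝ => (1 + ‖s‖) ^ (-(3 / 2 : ℝ))) :=
    integrable_one_add_norm (by simp; norm_num)
  have hI' : Integrable (fun s : ℝ => C * (1 + ‖s‖) ^ (-(3 / 2 : ℝ))) := hI.const_mul C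
  refine ne_of_lt (lt_of_le_of_lt (lintegral_mono fun s => ?_) hI'.lintegral_lt_top)
  unfold wt
  rw [← ENNReal.ofReal_mul (by positivity)]
  refine ENNReal.ofReal_le_ofReal ?_
  have h0 := one_le s
  calc (1 + |s|) ^ (-((2 : ℕ) : ℝ)) * (1 + Real.log (1 + |s|)) ^ n
      ≤ (1 + |s|) ^ (-((2 : ℕ) : ℝ)) * (C * (1 + |s|) ^ (1 / 2 : ℝ)) := by
        gcongr
        exact h _ h0
    _ = C * ((1 + |s|) ^ (-((2 : ℕ) : ℝ)) * (1 + |s|) ^ (1 / 2 : ℝ)) := by ring
    _ = C * (1 + ‖s‖) ^ (-(3 / 2 : ℝ)) := by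
        rw [← Real.rpow_add (by linarith), Real.norm_eq_abs]
        norm_num

theorem wt_fin0 : ∫⁻ s, wt s ≠ ⊤ := by
  have := wt_fin 0
  simpa using this

/-- Jensen / Hölder with a weight -/
theorem hold {p : ℝ} (hp : 1 < p) (m h : ℝ → ℝ≥0∞) (hm : Measurable m) (hh : Measurable h) :
    (∫⁻ s, m s * h s) ^ p ≤ (∫⁻ s, m s) ^ (p - 1) * ∫⁻ s, m s * h s ^ p := by
  have hpq : p.HolderConjugate (p.conjExponent) := Real.HolderConjugate.conjExponent hp
  have h1 := ENNReal.lintegral_mul_le_Lp_mul_Lq (volume.withDensity m) hpq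
    (f := h) (g := fun _ => 1) hh.aemeasurable aemeasurable_const
  simp only [Pi.mul_apply, mul_one, ENNReal.one_rpow, lintegral_const, one_mul] at h1
  have hpos : 0 < p := by linarith
  have e1 : ∫⁻ s, h s ∂(volume.withDensity m) = ∫⁻ s, m s * h s := by
    rw [lintegral_withDensity_eq_lintegral_mul _ hm hh]
    rfl
  have e2 : ∫⁻ s, h s ^ p ∂(volume.withDensity m) = ∫⁻ s, m s * h s ^ p := by
    rw [lintegral_withDensity_eq_lintegral_mul _ hm (hh.pow_const p)]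
    rfl
  have e3 : (volume.withDensity m) univ = ∫⁻ s, m s := by
    rw [withDensity_apply _ MeasurableSet.univ, Measure.restrict_univ]
  rw [e1, e2, e3] at h1
  have h2 := ENNReal.rpow_le_rpow h1 hpos.le
  rw [ENNReal.mul_rpow_of_nonneg _ _ hpos.le, ← ENNReal.rpow_mul, ← ENNReal.rpow_mul,
    one_div_mul_cancel hpos.ne', ENNReal.rpow_one] at h2
  have e4 : 1 / p.conjExponent * p = p - 1 := by
    rw [Real.conjExponent]
    have : p - 1 ≠ 0 := by linarith
    field_simp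
  rw [e4, mul_comm] at h2
  exact h2

theorem low : S_DEC → S_HB → S_REP → S_AVG → S_LOW := by
  intro hDEC hHB hREP hAVG n p hp2 hp4
  obtain ⟨C0, hC0, hDEC'⟩ := hDEC 2
  obtain ⟨Ca, hCa, hAVG'⟩ := hAVG n p hp2 hp4
  set A : ℝ≥0∞ := ∫⁻ s, wt s with hA
  set B : ℝ≥0∞ := ∫⁻ s, wt s * ENNReal.ofReal ((1 + Real.log (1 + |s|)) ^ n) with hB
  have hAf : A ≠ ⊤ := wt_fin0
  have hBf : B ≠ ⊤ := wt_fin n
  have hp0 : 0 < p := by linarith
  refine ⟨C0 ^ p * A.toReal ^ (p - 1) * Ca * B.toReal + 1, by positivity, ?_⟩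
  intro N hN Θ hΘ f hf hfi
  obtain ⟨hMc, hMb⟩ := hDEC' N hN Θ hΘ
  have hMi : Integrable (MK Θ) := by
    have hI : Integrable (fun s : ℝ => (1 + ‖s‖) ^ (-(2 : ℝ))) :=
      integrable_one_add_norm (by simp)
    refine (hI.const_mul (C0 * N)).mono' hMc.aestronglyMeasurable
      (Filter.Eventually.of_forall fun s => ?_)
    have := hMb s
    rw [Real.norm_eq_abs]
    simpa using this
  obtain ⟨hT, -⟩ := hHB n 1 one_pos f hf hfi
  have hTs := (hAVG' 1 one_pos f hf hfi).1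
  -- measurability
  have hF : Measurable (fun q : ((Fin n → ℝ) × ℝ) × (Fin n → ℝ) =>
      ‖T (fun j => ga 1 (q.1.1 j) q.1.2) f q.2‖ₑ ^ p) := hT.enorm.pow_const p
  -- pointwise bound
  set c : ℝ≥0∞ := ENNReal.ofReal (C0 * N) with hc
  have hpt : ∀ a ∈ box n, ∀ x, ‖IFT (fun ξ => Θ (H a ξ) * FT f ξ) x‖ₑ ^ p ≤
      c ^ p * A ^ (p - 1) * ∫⁻ s, wt s * ‖T (fun j => ga 1 (a j) s) f x‖ₑ ^ p := by
    intro a ha x
    have ha0 : ∀ j, 0 < a j := fun j => lt_of_lt_of_le one_pos (ha.1 j)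
    have h1 := hREP Θ hΘ.1.continuous ⟨16, fun y hy => by
      have := hΘ.2.1 y hy
      exact abs_le.2 ⟨by linarith, this.2⟩⟩ hMi n 1 one_pos f hf hfi a ha0 x
    simp only [one_mul] at h1
    have hmh : Measurable (fun s : ℝ => T (fun j => ga 1 (a j) s) f x) :=
      hT.comp (f := fun s : ℝ => (((a, s), x) : ((Fin n → ℝ) × ℝ) × (Fin n → ℝ))) (by fun_prop)
    have h2 : ‖IFT (fun ξ => Θ (H a ξ) * FT f ξ) x‖ₑ ≤
        ∫⁻ s, c * (wt s * ‖T (fun j => ga 1 (a j) s) f x‖ₑ) := by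
      rw [h1]
      refine (enorm_integral_le_lintegral_enorm _).trans (lintegral_mono fun s => ?_)
      simp only
      rw [enorm_mul, ← mul_assoc]
      refine mul_le_mul' ?_ le_rfl
      rw [hc, wt, ← ENNReal.ofReal_mul (by positivity), ← ofReal_norm]
      exact ENNReal.ofReal_le_ofReal (hMb s)
    rw [lintegral_const_mul' _ _ (by rw [hc]; exact ENNReal.ofReal_ne_top)] at h2
    calc ‖IFT (fun ξ => Θ (H a ξ) * FT f ξ) x‖ₑ ^ p
        ≤ (c * ∫⁻ s, wt s * ‖T (fun j => ga 1 (a j) s) f x‖ₑ) ^ p :=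
          ENNReal.rpow_le_rpow h2 hp0.le
      _ = c ^ p * (∫⁻ s, wt s * ‖T (fun j => ga 1 (a j) s) f x‖ₑ) ^ p :=
          ENNReal.mul_rpow_of_nonneg _ _ hp0.le
      _ ≤ c ^ p * (A ^ (p - 1) * ∫⁻ s, wt s * ‖T (fun j => ga 1 (a j) s) f x‖ₑ ^ p) := by
          gcongr
          exact hold (by linarith) _ _ wt_meas hmh.enorm
      _ = _ := by rw [mul_assoc]
  -- Tonelli
  have hswap : ∫⁻ a in box n, ∫⁻ x, ∫⁻ s, wt s * ‖T (fun j => ga 1 (a j) s) f x‖ₑ ^ p =
      ∫⁻ s, wt s * ∫⁻ a in box n, ∫⁻ x, ‖T (fun j => ga 1 (a j) s) f x‖ₑ ^ p := by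
    have e1 : ∀ a : Fin n → ℝ, ∫⁻ x, ∫⁻ s, wt s * ‖T (fun j => ga 1 (a j) s) f x‖ₑ ^ p =
        ∫⁻ s, wt s * ∫⁻ x, ‖T (fun j => ga 1 (a j) s) f x‖ₑ ^ p := by
      intro a
      rw [lintegral_lintegral_swap]
      · refine lintegral_congr fun s => ?_
        rw [lintegral_const_mul]
        exact hF.comp (f := fun x : Fin n → ℝ =>
          (((a, s), x) : ((Fin n → ℝ) × ℝ) × (Fin n → ℝ))) (by fun_prop)
      · refine Measurable.aemeasurable ?_
        refine Measurable.mul (wt_meas.comp measurable_snd) ?_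
        exact hF.comp (f := fun z : (Fin n → ℝ) × ℝ =>
          (((a, z.2), z.1) : ((Fin n → ℝ) × ℝ) × (Fin n → ℝ))) (by fun_prop)
    simp only [e1]
    have hG : Measurable (fun q : (Fin n → ℝ) × ℝ =>
        ∫⁻ x, ‖T (fun j => ga 1 (q.1 j) q.2) f x‖ₑ ^ p) := hF.lintegral_prod_right'
    rw [lintegral_lintegral_swap]
    · refine lintegral_congr fun s => ?_
      rw [lintegral_const_mul]
      exact hG.comp (f := fun a : Fin n → ℝ => ((a, s) : (Fin n → ℝ) × ℝ)) (by fun_prop)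
    · refine Measurable.aemeasurable ?_
      exact Measurable.mul (wt_meas.comp measurable_snd) hG
  have hboxm : MeasurableSet (box n) := measurableSet_Icc
  calc ∫⁻ a in box n, ∫⁻ x, ‖IFT (fun ξ => Θ (H a ξ) * FT f ξ) x‖ₑ ^ p
      ≤ ∫⁻ a in box n, ∫⁻ x, c ^ p * A ^ (p - 1) *
          ∫⁻ s, wt s * ‖T (fun j => ga 1 (a j) s) f x‖ₑ ^ p :=
        setLIntegral_mono' hboxm fun a ha => lintegral_mono fun x => hpt a ha x
    _ = c ^ p * A ^ (p - 1) *
          ∫⁻ a in box n, ∫⁻ x, ∫⁻ s, wt s * ‖T (fun j => ga 1 (a j) s) f x‖ₑ ^ p := by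
        have hne : c ^ p * A ^ (p - 1) ≠ ⊤ := by
          refine ENNReal.mul_ne_top (ENNReal.rpow_ne_top_of_nonneg hp0.le ?_)
            (ENNReal.rpow_ne_top_of_nonneg (by linarith) hAf)
          rw [hc]; exact ENNReal.ofReal_ne_top
        simp only [lintegral_const_mul' _ _ hne]
    _ = c ^ p * A ^ (p - 1) *
          ∫⁻ s, wt s * ∫⁻ a in box n, ∫⁻ x, ‖T (fun j => ga 1 (a j) s) f x‖ₑ ^ p := by
        rw [hswap]
    _ ≤ c ^ p * A ^ (p - 1) * ∫⁻ s, wt s *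
          (ENNReal.ofReal (Ca * (1 + Real.log (1 + |s|)) ^ n) * ∫⁻ x, ‖f x‖ₑ ^ p) := by
        gcongr with s
        exact hTs s
    _ = c ^ p * A ^ (p - 1) * (ENNReal.ofReal Ca * B * ∫⁻ x, ‖f x‖ₑ ^ p) := by
        congr 1
        have e2 : ∀ s : ℝ, wt s *
            (ENNReal.ofReal (Ca * (1 + Real.log (1 + |s|)) ^ n) * ∫⁻ x, ‖f x‖ₑ ^ p) =
            (wt s * ENNReal.ofReal ((1 + Real.log (1 + |s|)) ^ n)) *
              (ENNReal.ofReal Ca * ∫⁻ x, ‖f x‖ₑ ^ p) := by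
          intro s
          rw [ENNReal.ofReal_mul hCa.le]
          ring
        simp only [e2]
        rw [lintegral_mul_const, ← hB]
        · ring
        · exact wt_meas.mul (by fun_prop)
    _ = ENNReal.ofReal (C0 ^ p * A.toReal ^ (p - 1) * Ca * B.toReal * N ^ p) *
          ∫⁻ x, ‖f x‖ₑ ^ p := by
        have e3 : c ^ p = ENNReal.ofReal (C0 ^ p * N ^ p) := by
          rw [hc, ENNReal.ofReal_rpow_of_nonneg (by positivity) hp0.le,
            Real.mul_rpow hC0.le hN.le]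
        have e4 : A ^ (p - 1) = ENNReal.ofReal (A.toReal ^ (p - 1)) := by
          rw [← ENNReal.ofReal_rpow_of_nonneg ENNReal.toReal_nonneg (by linarith),
            ENNReal.ofReal_toReal hAf]
        have e5 : B = ENNReal.ofReal B.toReal := (ENNReal.ofReal_toReal hBf).symm
        have e6 : ENNReal.ofReal (C0 ^ p * A.toReal ^ (p - 1) * Ca * B.toReal * N ^ p) =
            ENNReal.ofReal (C0 ^ p * N ^ p) * ENNReal.ofReal (A.toReal ^ (p - 1)) *
              (ENNReal.ofReal Ca * ENNReal.ofReal B.toReal) := by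
          rw [← ENNReal.ofReal_mul hCa.le, ← ENNReal.ofReal_mul (by positivity),
            ← ENNReal.ofReal_mul (by positivity)]
          congr 1
          ring
        rw [e6, ← e3, ← e4, ← e5]
        ring
    _ ≤ ENNReal.ofReal ((C0 ^ p * A.toReal ^ (p - 1) * Ca * B.toReal + 1) * N ^ p) *
          ∫⁻ x, ‖f x‖ₑ ^ p := by
        gcongr
        linarith

end Pool.Agent.W636.WV
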